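import Pool.Agent.H78.Bass.Defs

/-!
# The Bass curve
-/

namespace Pool.Agent.H43.BG

/-- The Bass curve `f_Bass(t; p, q) = (1 - e^{-(p+q)t}) / (1 + (q/p) e^{-(p+q)t})`. -/
noncomputable def fBass (p q t : ℝ) : ℝ :=
  (1 - Real.exp (-(p + q) * t)) / (1 + q / p * Real.exp (-(p + q) * t))

end Pool.Agent.H43.BG
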