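import Pool.Agent.H43.BG.Defs
import Pool.Agent.H78.Bass.Main

/-!
# A gap between every network with `M` nodes and the Bass curve
-/

set_option autoImplicit false

open Pool.Agent.H78.Bass

namespace Pool.Agent.H43.BG

variable {M : ℕ} {p q : ℝ}

theorem den_pos (hp : 0 < p) (hq : 0 < q) (t : ℝ) :
    0 < 1 + q / p * Real.exp (-(p + q) * t) := by
  have := Real.exp_pos (-(p + q) * t)
  positivity

theorem alg1 {x D : ℝ} (hp : p ≠ 0) (hD : D ≠ 0) (h : D = 1 + q / p * x) :
    (-(x * (-(p + q) * 1)) * D - (1 - x) * (q / p * (x * (-(p + q) * 1)))) / D ^ 2 =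
      (1 - (1 - x) / D) * (p + q * ((1 - x) / D)) := by
  have h2 : q / p * x = D - 1 := by linarith
  have hpD : p * D = p + q * x := by
    rw [h]
    field_simp
  have e1 : -(x * (-(p + q) * 1)) * D - (1 - x) * (q / p * (x * (-(p + q) * 1))) =
      (p + q) * (x * D + (1 - x) * (q / p * x)) := by ring
  have e2 : (1 - (1 - x) / D) * (p + q * ((1 - x) / D)) =
      (D - 1 + x) * (p * D + q * (1 - x)) / D ^ 2 := by
    field_simp
    ring
  rw [e1, h2, e2, hpD]
  congr 1
  ring

theorem alg2 {x D : ℝ} (hp : p ≠ 0) (hD : D ≠ 0) (h : D = 1 + q / p * x) :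
    x / p * (p + q * ((1 - x) / D)) = 1 - (1 - x) / D := by
  have h2 : q / p * x = D - 1 := by linarith
  have e1 : x / p * (p + q * ((1 - x) / D)) = x + (q / p * x) * ((1 - x) / D) := by
    field_simp
  rw [e1, h2]
  field_simp
  ring

theorem fBass_hasDeriv (hp : 0 < p) (hq : 0 < q) (t : ℝ) :
    HasDerivAt (fBass p q) ((1 - fBass p q t) * (p + q * fBass p q t)) t := by
  have hd := den_pos hp hq t
  have he : HasDerivAt (fun s : ℝ => Real.exp (-(p + q) * s))
      (Real.exp (-(p + q) * t) * (-(p + q) * 1)) t :=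
    ((hasDerivAt_id t).const_mul (-(p + q))).exp
  have h := (he.const_sub 1).fun_div ((he.const_mul (q / p)).const_add 1) hd.ne'
  have e : (fBass p q) = fun s => (1 - Real.exp (-(p + q) * s)) /
      (1 + q / p * Real.exp (-(p + q) * s)) := rfl
  rw [e]
  exact h.congr_deriv (alg1 hp.ne' hd.ne' rfl)

theorem exp_eq (hp : 0 < p) (hq : 0 < q) (t : ℝ) :
    Real.exp (-(p + q) * t) / p * (p + q * fBass p q t) = 1 - fBass p q t :=
  alg2 hp.ne' (den_pos hp hq t).ne' rfl

theorem fBass_zero : fBass p q 0 = 0 := by simp [fBass]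

theorem fBass_pos (hp : 0 < p) (hq : 0 < q) {t : ℝ} (ht : 0 < t) : 0 < fBass p q t := by
  unfold fBass
  refine div_pos ?_ (den_pos hp hq t)
  have : Real.exp (-(p + q) * t) < 1 := by
    rw [← Real.exp_zero]
    exact Real.exp_lt_exp.2 (by nlinarith)
  linarith

theorem fBass_nonneg (hp : 0 < p) (hq : 0 < q) {t : ℝ} (ht : 0 ≤ t) : 0 ≤ fBass p q t := by
  rcases ht.eq_or_lt with h | h
  · rw [← h, fBass_zero]
  · exact (fBass_pos hp hq h).le

theorem fBass_lt_one (hp : 0 < p) (hq : 0 < q) (t : ℝ) : fBass p q t < 1 := by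
  unfold fBass
  rw [div_lt_one (den_pos hp hq t)]
  have := Real.exp_pos (-(p + q) * t)
  have : 0 < q / p * Real.exp (-(p + q) * t) := by positivity
  linarith

theorem fBass_cont (hp : 0 < p) (hq : 0 < q) : Continuous (fBass p q) :=
  continuous_iff_continuousAt.2 fun t => (fBass_hasDeriv hp hq t).continuousAt

/-- the integral of the Bass curve -/
noncomputable def RR (p q t : ℝ) : ℝ := ∫ s in (0:ℝ)..t, fBass p q s

/-- the integral of the square of the Bass curve -/
noncomputable def FF (p q t : ℝ) : ℝ := ∫ s in (0:ℝ)..t, fBass p q s ^ 2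

theorem RR_hasDeriv (hp : 0 < p) (hq : 0 < q) (t : ℝ) :
    HasDerivAt (RR p q) (fBass p q t) t :=
  ((fBass_cont hp hq).integral_hasStrictDerivAt 0 t).hasDerivAt

theorem FF_hasDeriv (hp : 0 < p) (hq : 0 < q) (t : ℝ) :
    HasDerivAt (FF p q) (fBass p q t ^ 2) t :=
  (((fBass_cont hp hq).pow 2).integral_hasStrictDerivAt 0 t).hasDerivAt

theorem RR_zero : RR p q 0 = 0 := by simp [RR]

theorem FF_zero : FF p q 0 = 0 := by simp [FF]

theorem RR_pos (hp : 0 < p) (hq : 0 < q) {t : ℝ} (ht : 0 < t) : 0 < RR p q t :=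
  compare_strict (f := RR p q) (c := 0) (RR_hasDeriv hp hq)
    (fun s hs => by have := fBass_pos hp hq hs; linarith) (by rw [RR_zero]) ht

theorem RR_nonneg (hp : 0 < p) (hq : 0 < q) {t : ℝ} (ht : 0 ≤ t) : 0 ≤ RR p q t := by
  rcases ht.eq_or_lt with h | h
  · rw [← h, RR_zero]
  · exact (RR_pos hp hq h).le

/-- the double integral of the gap -/
noncomputable def JJ (p q t : ℝ) : ℝ := fBass p q t * RR p q t - FF p q t

theorem JJ_hasDeriv (hp : 0 < p) (hq : 0 < q) (t : ℝ) :
    HasDerivAt (JJ p q) ((1 - fBass p q t) * (p + q * fBass p q t) * RR p q t) t := by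
  have h := ((fBass_hasDeriv hp hq t).fun_mul (RR_hasDeriv hp hq t)).fun_sub (FF_hasDeriv hp hq t)
  have e : JJ p q = fun s => fBass p q s * RR p q s - FF p q s := rfl
  rw [e]
  exact h.congr_deriv (by ring)

theorem JJ_zero : JJ p q 0 = 0 := by simp [JJ, FF_zero, RR_zero]

theorem JJ_eq (hp : 0 < p) (hq : 0 < q) (t : ℝ) :
    ∫ s in (0:ℝ)..t, fBass p q s * (fBass p q t - fBass p q s) = JJ p q t := by
  have e : (fun s => fBass p q s * (fBass p q t - fBass p q s)) =
      fun s => fBass p q t * fBass p q s - fBass p q s ^ 2 := by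
    funext s; ring
  have hc := fBass_cont hp hq
  rw [e, intervalIntegral.integral_sub, intervalIntegral.integral_const_mul]
  · rfl
  · exact (continuous_const.mul hc).intervalIntegrable _ _
  · exact (hc.pow 2).intervalIntegrable _ _

theorem JJ_pos (hp : 0 < p) (hq : 0 < q) {t : ℝ} (ht : 0 < t) : 0 < JJ p q t :=
  compare_strict (f := JJ p q) (c := 0) (JJ_hasDeriv hp hq)
    (fun s hs => by
      have h1 := RR_pos hp hq hs
      have h2 := fBass_lt_one hp hq s
      have h3 := fBass_pos hp hq hs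
      have h4 : 0 < 1 - fBass p q s := by linarith
      have : 0 < (1 - fBass p q s) * (p + q * fBass p q s) * RR p q s := by positivity
      linarith) (by rw [JJ_zero]) ht

/-- the solution of the comparison equation -/
noncomputable def KK (p q t : ℝ) : ℝ := Real.exp (-(p + q) * t) / p * JJ p q t

theorem KK_hasDeriv (hp : 0 < p) (hq : 0 < q) (t : ℝ) :
    HasDerivAt (KK p q) (-(p + q) * KK p q t + (1 - fBass p q t) ^ 2 * RR p q t) t := by
  have he : HasDerivAt (fun s : ℝ => Real.exp (-(p + q) * s))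
      (Real.exp (-(p + q) * t) * (-(p + q) * 1)) t :=
    ((hasDerivAt_id t).const_mul (-(p + q))).exp
  have h := (he.div_const p).fun_mul (JJ_hasDeriv hp hq t)
  have e := exp_eq hp hq t
  have e2 : KK p q = fun s => Real.exp (-(p + q) * s) / p * JJ p q s := rfl
  rw [e2]
  refine h.congr_deriv ?_
  simp only
  rw [show Real.exp (-(p + q) * t) / p * ((1 - fBass p q t) * (p + q * fBass p q t) * RR p q t) =
    (Real.exp (-(p + q) * t) / p * (p + q * fBass p q t)) * ((1 - fBass p q t) * RR p q t) by ring,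
    e]
  ring

theorem LL_hasDeriv (hp : 0 < p) (hq : 0 < q) (m : ℕ) (c t : ℝ) :
    HasDerivAt (fun s => (1 - fBass p q s) ^ m * (1 + c * RR p q s))
      ((1 - fBass p q t) ^ m * (-(m : ℝ) * (p + q * fBass p q t) * (1 + c * RR p q t) +
        c * fBass p q t)) t := by
  have h1 := ((fBass_hasDeriv hp hq t).const_sub 1).fun_pow m
  have h2 := ((RR_hasDeriv hp hq t).const_mul c).const_add 1
  have h3 := h1.fun_mul h2
  refine h3.congr_deriv ?_
  rcases m with _ | m
  · simp
  · have e : m + 1 - 1 = m := rfl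
    rw [e]
    push_cast
    ring

/-- indicator of the event that no node of `A` is an adopter -/
noncomputable def phi (A X : Finset (Fin M)) : ℝ := if Disjoint X A then 1 else 0

/-- the probability that no node of `A` is an adopter -/
noncomputable def SS (p : ℝ) (w : Fin M → Fin M → ℝ) (A : Finset (Fin M)) (t : ℝ) : ℝ :=
  ex (fun _ => p) w (phi A) t

theorem genF_phi (p : ℝ) (w : Fin M → Fin M → ℝ) (A X : Finset (Fin M)) :
    genF (fun _ => p) w (phi A) X =
      -((A.card : ℝ) * p) * phi A X - ∑ k, (∑ j ∈ A, w k j) * (phi A X - phi (insert k A) X) := by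
  unfold genF phi rate
  by_cases h : Disjoint X A
  · have h1 : ∀ j ∈ Xᶜ, (p + ∑ k ∈ X, w k j) *
        ((if Disjoint (insert j X) A then (1:ℝ) else 0) - (if Disjoint X A then 1 else 0)) =
        if j ∈ A then -(p + ∑ k ∈ X, w k j) else 0 := by
      intro j _
      rw [if_pos h]
      by_cases hj : j ∈ A
      · rw [if_pos hj, if_neg]
        · ring
        · rw [Finset.disjoint_insert_left]
          tauto
      · rw [if_neg hj, if_pos]
        · ring
        · rw [Finset.disjoint_insert_left]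
          exact ⟨hj, h⟩
    have h2 : ∀ k : Fin M, (∑ j ∈ A, w k j) * ((if Disjoint X A then (1:ℝ) else 0) -
        (if Disjoint X (insert k A) then 1 else 0)) = if k ∈ X then ∑ j ∈ A, w k j else 0 := by
      intro k
      rw [if_pos h]
      by_cases hk : k ∈ X
      · rw [if_pos hk, if_neg]
        · ring
        · rw [Finset.disjoint_insert_right]
          tauto
      · rw [if_neg hk, if_pos]
        · ring
        · rw [Finset.disjoint_insert_right]
          exact ⟨hk, h⟩
    rw [Finset.sum_congr rfl h1, Finset.sum_congr rfl fun k _ => h2 k, if_pos h,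
      ← Finset.sum_filter, ← Finset.sum_filter]
    have e1 : Xᶜ.filter (· ∈ A) = A := by
      ext j
      simp only [Finset.mem_filter, Finset.mem_compl]
      constructor
      · exact fun h => h.2
      · exact fun hj => ⟨fun hx => (Finset.disjoint_left.1 h hx) hj, hj⟩
    have e2 : (Finset.univ : Finset (Fin M)).filter (· ∈ X) = X := by
      ext j; simp
    rw [e1, e2, Finset.sum_neg_distrib, Finset.sum_add_distrib, Finset.sum_const,
      Finset.sum_comm (s := X), nsmul_eq_mul]
    ring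
  · have h1 : ∀ j ∈ Xᶜ, (p + ∑ k ∈ X, w k j) *
        ((if Disjoint (insert j X) A then (1:ℝ) else 0) - (if Disjoint X A then 1 else 0)) = 0 := by
      intro j _
      rw [if_neg h, if_neg]
      · ring
      · rw [Finset.disjoint_insert_left]
        tauto
    have h2 : ∀ k : Fin M, (∑ j ∈ A, w k j) * ((if Disjoint X A then (1:ℝ) else 0) -
        (if Disjoint X (insert k A) then 1 else 0)) = 0 := by
      intro k
      rw [if_neg h, if_neg]
      · ring
      · rw [Finset.disjoint_insert_right]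
        tauto
    rw [Finset.sum_eq_zero h1, Finset.sum_eq_zero fun k _ => h2 k, if_neg h]
    ring

theorem SS_deriv (p : ℝ) (w : Fin M → Fin M → ℝ) (A : Finset (Fin M)) (t : ℝ) :
    HasDerivAt (SS p w A)
      (-((A.card : ℝ) * p + ∑ k ∈ Aᶜ, ∑ j ∈ A, w k j) * SS p w A t +
        ∑ k ∈ Aᶜ, (∑ j ∈ A, w k j) * SS p w (insert k A) t) t := by
  have h := ex_hasDeriv (fun _ : Fin M => p) w (phi A) t
  have e : ex (fun _ : Fin M => p) w (genF (fun _ => p) w (phi A)) t =
      -((A.card : ℝ) * p + ∑ k ∈ Aᶜ, ∑ j ∈ A, w k j) * SS p w A t +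
        ∑ k ∈ Aᶜ, (∑ j ∈ A, w k j) * SS p w (insert k A) t := by
    have e1 : ∀ X : Finset (Fin M), genF (fun _ => p) w (phi A) X =
        -((A.card : ℝ) * p + ∑ k ∈ Aᶜ, ∑ j ∈ A, w k j) * phi A X +
          ∑ k ∈ Aᶜ, (∑ j ∈ A, w k j) * phi (insert k A) X := by
      intro X
      rw [genF_phi, ← Finset.sum_add_sum_compl A
        (fun k => (∑ j ∈ A, w k j) * (phi A X - phi (insert k A) X))]
      have e2 : ∑ k ∈ A, (∑ j ∈ A, w k j) * (phi A X - phi (insert k A) X) = 0 := by
        refine Finset.sum_eq_zero fun k hk => ?_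
        rw [Finset.insert_eq_of_mem hk]
        ring
      rw [e2]
      simp_rw [mul_sub]
      rw [Finset.sum_sub_distrib, ← Finset.sum_mul]
      ring
    unfold SS ex
    simp_rw [e1, mul_add, Finset.mul_sum]
    rw [Finset.sum_add_distrib]
    congr 1
    · refine Finset.sum_congr rfl fun Y _ => by ring
    · rw [Finset.sum_comm]
      refine Finset.sum_congr rfl fun k _ => Finset.sum_congr rfl fun Y _ => by ring
  rw [e] at h
  exact h

theorem SS_zero (p : ℝ) (w : Fin M → Fin M → ℝ) (A : Finset (Fin M)) : SS p w A 0 = 1 := by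
  unfold SS
  rw [ex_zero]
  simp [phi]

theorem sum_out {w : Fin M → Fin M → ℝ} (hw : IsHomogeneous q w) (A : Finset (Fin M)) :
    ∑ k ∈ Aᶜ, ∑ j ∈ A, w k j = (A.card : ℝ) * q - wt w A := by
  have h1 := Finset.sum_add_sum_compl A (fun k => ∑ j ∈ A, w k j)
  have h2 : ∑ k, ∑ j ∈ A, w k j = (A.card : ℝ) * q := by
    rw [Finset.sum_comm]
    simp_rw [hw.sum]
    rw [Finset.sum_const, nsmul_eq_mul]
  have h3 : ∑ k ∈ A, ∑ j ∈ A, w k j = wt w A := by
    unfold wt
    rw [Finset.sum_comm]
  linarith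

theorem wt_mono {w : Fin M → Fin M → ℝ} (hw : IsHomogeneous q w) {A B : Finset (Fin M)}
    (h : A ⊆ B) : wt w A ≤ wt w B := by
  unfold wt
  calc ∑ j ∈ A, ∑ k ∈ A, w k j ≤ ∑ j ∈ A, ∑ k ∈ B, w k j :=
        Finset.sum_le_sum fun j _ =>
          Finset.sum_le_sum_of_subset_of_nonneg h fun k _ _ => hw.nonneg k j
    _ ≤ _ := Finset.sum_le_sum_of_subset_of_nonneg h fun j _ _ =>
        Finset.sum_nonneg fun k _ => hw.nonneg k j

theorem wt_nonneg {w : Fin M → Fin M → ℝ} (hw : IsHomogeneous q w) (A : Finset (Fin M)) :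
    0 ≤ wt w A :=
  Finset.sum_nonneg fun j _ => Finset.sum_nonneg fun k _ => hw.nonneg k j

/-- lower bound for the probability that no node of `A` is an adopter -/
theorem SS_ge (hp : 0 < p) (hq : 0 < q) {w : Fin M → Fin M → ℝ} (hw : IsHomogeneous q w)
    (A : Finset (Fin M)) {t : ℝ} (ht : 0 ≤ t) :
    (1 - fBass p q t) ^ A.card * (1 + wt w A * RR p q t) ≤ SS p w A t := by
  induction hn : (Aᶜ).card using Nat.strong_induction_on generalizing A t with
  | _ n ih =>
    subst hn
    have key := compare (f := fun s => SS p w A s -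
        (1 - fBass p q s) ^ A.card * (1 + wt w A * RR p q s))
      (c := (A.card : ℝ) * p + ∑ k ∈ Aᶜ, ∑ j ∈ A, w k j)
      (fun s => (SS_deriv p w A s).sub (LL_hasDeriv hp hq A.card (wt w A) s)) ?_ ?_ ht
    · linarith
    · intro s hs
      have h1 : (∑ k ∈ Aᶜ, ∑ j ∈ A, w k j) *
          ((1 - fBass p q s) ^ (A.card + 1) * (1 + wt w A * RR p q s)) ≤
          ∑ k ∈ Aᶜ, (∑ j ∈ A, w k j) * SS p w (insert k A) s := by
        rw [Finset.sum_mul]
        refine Finset.sum_le_sum fun k hk => ?_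
        refine mul_le_mul_of_nonneg_left ?_ (Finset.sum_nonneg fun j _ => hw.nonneg k j)
        have hkA : k ∉ A := by simpa using hk
        have h2 := ih (insert k A)ᶜ.card (by
          refine Finset.card_lt_card ?_
          rw [Finset.ssubset_iff_of_subset]
          · exact ⟨k, by simpa using hkA, by simp⟩
          · intro x hx
            simp only [Finset.mem_compl, Finset.mem_insert, not_or] at hx ⊢
            exact hx.2) (insert k A) hs rfl
        rw [Finset.card_insert_of_notMem hkA] at h2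
        refine le_trans ?_ h2
        have h3 : 0 ≤ (1 - fBass p q s) ^ (A.card + 1) :=
          pow_nonneg (by linarith [fBass_lt_one hp hq s]) _
        refine mul_le_mul_of_nonneg_left ?_ h3
        have h4 := wt_mono hw (Finset.subset_insert k A)
        have h5 := RR_nonneg hp hq hs
        nlinarith
      have h6 := sum_out hw A
      have h7 : 0 ≤ (1 - fBass p q s) ^ A.card := pow_nonneg (by linarith [fBass_lt_one hp hq s]) _
      have h8 := RR_nonneg hp hq hs
      have h9 := fBass_nonneg hp hq hs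
      have h10 : 0 ≤ (1 - fBass p q s) ^ A.card * (fBass p q s * wt w A ^ 2 * RR p q s) := by
        positivity
      rw [h6] at h1 ⊢
      have h11 : ((A.card : ℝ) * q - wt w A) *
          ((1 - fBass p q s) ^ (A.card + 1) * (1 + wt w A * RR p q s)) =
          (1 - fBass p q s) ^ A.card * (-(A.card : ℝ) * (p + q * fBass p q s) *
            (1 + wt w A * RR p q s) + wt w A * fBass p q s) +
          ((A.card : ℝ) * p + ((A.card : ℝ) * q - wt w A)) *
            ((1 - fBass p q s) ^ A.card * (1 + wt w A * RR p q s)) +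
          (1 - fBass p q s) ^ A.card * (fBass p q s * wt w A ^ 2 * RR p q s) := by
        rw [pow_succ]
        ring
      linarith
    · simp [SS_zero, fBass_zero, RR_zero]

/-- the sum of the squares of the pair weights -/
noncomputable def QQ (w : Fin M → Fin M → ℝ) : ℝ := ∑ k, ∑ j, (w k j + w j k) ^ 2

theorem pair_sum {w : Fin M → Fin M → ℝ} :
    ∑ j, ∑ k, w k j * (w k j + w j k) = QQ w / 2 := by
  have h1 : ∑ j, ∑ k, w k j * (w k j + w j k) = ∑ k, ∑ j, w k j * (w k j + w j k) :=
    Finset.sum_comm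
  have h2 : ∑ j, ∑ k, w k j * (w k j + w j k) = ∑ k, ∑ j, w j k * (w k j + w j k) := by
    refine Finset.sum_congr rfl fun j _ => Finset.sum_congr rfl fun k _ => by ring
  have h3 : QQ w = ∑ k, ∑ j, w k j * (w k j + w j k) + ∑ k, ∑ j, w j k * (w k j + w j k) := by
    unfold QQ
    rw [← Finset.sum_add_distrib]
    refine Finset.sum_congr rfl fun k _ => ?_
    rw [← Finset.sum_add_distrib]
    refine Finset.sum_congr rfl fun j _ => by ring
  linarith

/-- the expected number of non-adopters -/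
noncomputable def TT (p : ℝ) (w : Fin M → Fin M → ℝ) (t : ℝ) : ℝ := ∑ j, SS p w {j} t

theorem TT_eq (hM : 1 ≤ M) (w : Fin M → Fin M → ℝ) (t : ℝ) :
    level (fun _ => p) w t = 1 - TT p w t / M := by
  have hM' : (M : ℝ) ≠ 0 := by positivity
  have h : TT p w t = ∑ Y, law (fun _ => p) w t Y * ((M : ℝ) - Y.card) := by
    unfold TT SS ex
    rw [Finset.sum_comm]
    refine Finset.sum_congr rfl fun Y _ => ?_
    rw [← Finset.mul_sum]
    congr 1
    unfold phi
    simp only [Finset.disjoint_singleton_right]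
    rw [← Finset.sum_filter, Finset.sum_const, nsmul_eq_mul, mul_one]
    have : (Finset.univ : Finset (Fin M)).filter (fun j => j ∉ Y) = Yᶜ := by
      ext j; simp
    rw [this, Finset.card_compl, Fintype.card_fin, Nat.cast_sub
      (by simpa using Finset.card_le_univ Y)]
  rw [h]
  unfold level
  simp_rw [mul_sub]
  rw [Finset.sum_sub_distrib, ← Finset.sum_mul, law_sum]
  field_simp
  ring

theorem TT_ge (hp : 0 < p) (hq : 0 < q) {w : Fin M → Fin M → ℝ} (hw : IsHomogeneous q w)
    {t : ℝ} (ht : 0 ≤ t) :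
    (M : ℝ) * (1 - fBass p q t) + QQ w / 2 * KK p q t ≤ TT p w t := by
  have hT : ∀ s, HasDerivAt (TT p w) (∑ j, (-((({j} : Finset (Fin M)).card : ℝ) * p +
      ∑ k ∈ ({j} : Finset (Fin M))ᶜ, ∑ i ∈ ({j} : Finset (Fin M)), w k i) * SS p w {j} s +
        ∑ k ∈ ({j} : Finset (Fin M))ᶜ, (∑ i ∈ ({j} : Finset (Fin M)), w k i) *
          SS p w (insert k {j}) s)) s := by
    intro s
    exact HasDerivAt.fun_sum fun j _ => SS_deriv p w {j} s
  have hG : ∀ s, HasDerivAt (fun s => (M : ℝ) * (1 - fBass p q s) + QQ w / 2 * KK p q s)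
      ((M : ℝ) * (-((1 - fBass p q s) * (p + q * fBass p q s))) +
        QQ w / 2 * (-(p + q) * KK p q s + (1 - fBass p q s) ^ 2 * RR p q s)) s := by
    intro s
    exact (((fBass_hasDeriv hp hq s).const_sub 1).const_mul (M : ℝ)).add
      ((KK_hasDeriv hp hq s).const_mul (QQ w / 2))
  have key := compare (f := fun s => TT p w s -
      ((M : ℝ) * (1 - fBass p q s) + QQ w / 2 * KK p q s)) (c := p + q)
    (fun s => (hT s).sub (hG s)) ?_ ?_ ht
  · linarith
  · intro s hs
    have h1 : ∀ j : Fin M, ∑ k ∈ ({j} : Finset (Fin M))ᶜ, ∑ i ∈ ({j} : Finset (Fin M)), w k i =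
        q := by
      intro j
      rw [sum_out hw]
      simp [wt, hw.diag]
    have h2 : ∀ j : Fin M, (1 - fBass p q s) ^ 2 *
        ∑ k, w k j * (1 + (w k j + w j k) * RR p q s) ≤
        ∑ k ∈ ({j} : Finset (Fin M))ᶜ, (∑ i ∈ ({j} : Finset (Fin M)), w k i) *
          SS p w (insert k {j}) s := by
      intro j
      have e : ∑ k, w k j * (1 + (w k j + w j k) * RR p q s) =
          ∑ k ∈ ({j} : Finset (Fin M))ᶜ, w k j * (1 + (w k j + w j k) * RR p q s) := by
        rw [← Finset.sum_add_sum_compl {j}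
          (fun k => w k j * (1 + (w k j + w j k) * RR p q s))]
        simp [hw.diag]
      rw [e, Finset.mul_sum]
      refine Finset.sum_le_sum fun k hk => ?_
      have hkj : k ≠ j := by simpa using hk
      have h3 := SS_ge hp hq hw (insert k {j}) hs
      rw [Finset.card_pair hkj] at h3
      have h4 : wt w {k, j} = w k j + w j k := by
        unfold wt
        rw [Finset.sum_pair hkj, Finset.sum_pair hkj, Finset.sum_pair hkj, hw.diag, hw.diag]
        ring
      rw [h4] at h3
      rw [Finset.sum_singleton]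
      have h5 := mul_le_mul_of_nonneg_left h3 (hw.nonneg k j)
      linarith
    have h6 : ∑ j, (-((({j} : Finset (Fin M)).card : ℝ) * p +
      ∑ k ∈ ({j} : Finset (Fin M))ᶜ, ∑ i ∈ ({j} : Finset (Fin M)), w k i) * SS p w {j} s +
        ∑ k ∈ ({j} : Finset (Fin M))ᶜ, (∑ i ∈ ({j} : Finset (Fin M)), w k i) *
          SS p w (insert k {j}) s) = -(p + q) * TT p w s +
        ∑ j, ∑ k ∈ ({j} : Finset (Fin M))ᶜ, (∑ i ∈ ({j} : Finset (Fin M)), w k i) *
          SS p w (insert k {j}) s := by
      rw [Finset.sum_add_distrib]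
      congr 1
      unfold TT
      rw [Finset.mul_sum]
      refine Finset.sum_congr rfl fun j _ => ?_
      rw [h1 j]
      simp
    have h7 : ∑ j, (1 - fBass p q s) ^ 2 * ∑ k, w k j * (1 + (w k j + w j k) * RR p q s) =
        (1 - fBass p q s) ^ 2 * ((M : ℝ) * q + QQ w / 2 * RR p q s) := by
      rw [← Finset.mul_sum]
      congr 1
      have e1 : ∀ j : Fin M, ∑ k, w k j * (1 + (w k j + w j k) * RR p q s) =
          q + (∑ k, w k j * (w k j + w j k)) * RR p q s := by
        intro j
        rw [← hw.sum j, Finset.sum_mul, ← Finset.sum_add_distrib]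
        refine Finset.sum_congr rfl fun k _ => by ring
      simp_rw [e1]
      rw [Finset.sum_add_distrib, ← Finset.sum_mul, pair_sum]
      simp
    have h8 := Finset.sum_le_sum fun j (_ : j ∈ (Finset.univ : Finset (Fin M))) => h2 j
    rw [h7] at h8
    rw [h6]
    have h9 : -(p + q) * (TT p w s - ((M : ℝ) * (1 - fBass p q s) + QQ w / 2 * KK p q s)) =
        -(p + q) * TT p w s + (1 - fBass p q s) ^ 2 * ((M : ℝ) * q + QQ w / 2 * RR p q s) -
        ((M : ℝ) * (-((1 - fBass p q s) * (p + q * fBass p q s))) +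
        QQ w / 2 * (-(p + q) * KK p q s + (1 - fBass p q s) ^ 2 * RR p q s)) := by
      ring
    linarith
  · simp [TT, SS_zero, fBass_zero, KK, JJ_zero]

theorem QQ_ge (hM : 2 ≤ M) {w : Fin M → Fin M → ℝ} (hw : IsHomogeneous q w) :
    4 * M * q ^ 2 / ((M : ℝ) - 1) ≤ QQ w := by
  have hM1 : (0:ℝ) < (M : ℝ) - 1 := by
    have : (2:ℝ) ≤ M := by exact_mod_cast hM
    linarith
  have hM0 : (0:ℝ) < M := by linarith
  set a : ℝ := 2 * q / ((M : ℝ) - 1) with ha
  have h1 : ∑ k, ∑ j, (w k j + w j k) = 2 * M * q := by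
    have e1 : ∑ k, ∑ j, w k j = M * q := by
      rw [Finset.sum_comm]
      simp_rw [hw.sum]
      simp
    have e2 : ∑ k, ∑ j, w j k = (M : ℝ) * q := by
      simp_rw [hw.sum]
      simp
    simp_rw [Finset.sum_add_distrib]
    rw [e1, e2]
    ring
  have h2 : ∀ k j : Fin M, 2 * a * (w k j + w j k) - (if k = j then 0 else a ^ 2) ≤
      (w k j + w j k) ^ 2 := by
    intro k j
    by_cases h : k = j
    · subst h
      simp [hw.diag]
    · rw [if_neg h]
      nlinarith [sq_nonneg (w k j + w j k - a)]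
  have h3 : ∑ k, ∑ j, (2 * a * (w k j + w j k) - (if k = j then 0 else a ^ 2)) ≤ QQ w :=
    Finset.sum_le_sum fun k _ => Finset.sum_le_sum fun j _ => h2 k j
  have h4 : ∑ k : Fin M, ∑ j : Fin M, (if k = j then (0:ℝ) else a ^ 2) =
      M * (M - 1) * a ^ 2 := by
    have e : ∀ k : Fin M, ∑ j : Fin M, (if k = j then (0:ℝ) else a ^ 2) = (M - 1) * a ^ 2 := by
      intro k
      have : ∀ j : Fin M, (if k = j then (0:ℝ) else a ^ 2) = a ^ 2 - if k = j then a ^ 2 else 0 := by
        intro j
        split_ifs <;> ring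
      simp_rw [this]
      rw [Finset.sum_sub_distrib]
      simp
      ring
    simp_rw [e]
    simp
    ring
  have h5 : ∑ k, ∑ j, (2 * a * (w k j + w j k) - (if k = j then 0 else a ^ 2)) =
      2 * a * (2 * M * q) - M * (M - 1) * a ^ 2 := by
    simp_rw [Finset.sum_sub_distrib, ← Finset.mul_sum]
    rw [h1, h4]
  rw [h5] at h3
  have h6 : 2 * a * (2 * M * q) - M * (M - 1) * a ^ 2 = 4 * M * q ^ 2 / ((M : ℝ) - 1) := by
    rw [ha]
    field_simp
    ring
  linarith

/-- main theorem, form with the pair weights -/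
theorem level_le_pairs (hM : 2 ≤ M) (hp : 0 < p) (hq : 0 < q) {w : Fin M → Fin M → ℝ}
    (hw : IsHomogeneous q w) {t : ℝ} (ht : 0 ≤ t) :
    level (fun _ => p) w t ≤ fBass p q t - Real.exp (-(p + q) * t) / (p * M) *
      ((∑ k, ∑ j, (w k j + w j k) ^ 2) / 2) *
      ∫ s in (0:ℝ)..t, fBass p q s * (fBass p q t - fBass p q s) := by
  have hM0 : (0:ℝ) < M := by
    have : 0 < M := by omega
    exact_mod_cast this
  rw [TT_eq (by omega), JJ_eq hp hq]
  have h := TT_ge hp hq hw ht
  have h2 : ((M : ℝ) * (1 - fBass p q t) + QQ w / 2 * KK p q t) / M ≤ TT p w t / M :=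
    div_le_div_of_nonneg_right h hM0.le
  have h3 : ((M : ℝ) * (1 - fBass p q t) + QQ w / 2 * KK p q t) / M = (1 - fBass p q t) +
      Real.exp (-(p + q) * t) / (p * M) * ((∑ k, ∑ j, (w k j + w j k) ^ 2) / 2) * JJ p q t := by
    unfold KK QQ
    field_simp
  linarith

/-- main theorem, uniform form -/
theorem level_le_uniform (hM : 2 ≤ M) (hp : 0 < p) (hq : 0 < q) {w : Fin M → Fin M → ℝ}
    (hw : IsHomogeneous q w) {t : ℝ} (ht : 0 ≤ t) :
    level (fun _ => p) w t ≤ fBass p q t - 2 * q ^ 2 / (p * ((M : ℝ) - 1)) *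
      Real.exp (-(p + q) * t) *
      ∫ s in (0:ℝ)..t, fBass p q s * (fBass p q t - fBass p q s) := by
  have h := level_le_pairs hM hp hq hw ht
  have hQ := QQ_ge hM hw
  have hM1 : (0:ℝ) < (M : ℝ) - 1 := by
    have : (2:ℝ) ≤ M := by exact_mod_cast hM
    linarith
  have hM0 : (0:ℝ) < M := by linarith
  rw [JJ_eq hp hq] at h ⊢
  have hJ : 0 ≤ JJ p q t := by
    rcases ht.eq_or_lt with h0 | h0
    · rw [← h0, JJ_zero]
    · exact (JJ_pos hp hq h0).le
  have h2 : 2 * q ^ 2 / (p * ((M : ℝ) - 1)) * Real.exp (-(p + q) * t) * JJ p q t =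
      Real.exp (-(p + q) * t) / (p * M) * ((4 * M * q ^ 2 / ((M : ℝ) - 1)) / 2) * JJ p q t := by
    field_simp
    ring
  have h3 : Real.exp (-(p + q) * t) / (p * M) * ((4 * M * q ^ 2 / ((M : ℝ) - 1)) / 2) * JJ p q t ≤
      Real.exp (-(p + q) * t) / (p * M) * ((∑ k, ∑ j, (w k j + w j k) ^ 2) / 2) * JJ p q t := by
    refine mul_le_mul_of_nonneg_right (mul_le_mul_of_nonneg_left ?_ (by positivity)) hJ
    unfold QQ at hQ
    linarith
  linarith

theorem gap_pos (hp : 0 < p) (hq : 0 < q) {t : ℝ} (ht : 0 < t) :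
    0 < ∫ s in (0:ℝ)..t, fBass p q s * (fBass p q t - fBass p q s) := by
  rw [JJ_eq hp hq]
  exact JJ_pos hp hq ht

theorem sum_pairs {w : Fin M → Fin M → ℝ} (hw : IsHomogeneous q w) :
    ∑ k, ∑ j, (w k j + w j k) = 2 * M * q := by
  have e1 : ∑ k, ∑ j, w k j = M * q := by
    rw [Finset.sum_comm]
    simp_rw [hw.sum]
    simp
  have e2 : ∑ k, ∑ j, w j k = (M : ℝ) * q := by
    simp_rw [hw.sum]
    simp
  simp_rw [Finset.sum_add_distrib]
  rw [e1, e2]
  ring

theorem QQ_card {w : Fin M → Fin M → ℝ} (hw : IsHomogeneous q w) (E : ℕ)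
    (hE : {x : Fin M × Fin M | x.1 < x.2 ∧ 0 < w x.1 x.2 + w x.2 x.1}.ncard ≤ E) :
    2 * (M * q) ^ 2 ≤ E * QQ w := by
  classical
  set P : Finset (Fin M × Fin M) :=
    Finset.univ.filter (fun x => x.1 < x.2 ∧ 0 < w x.1 x.2 + w x.2 x.1) with hP
  set N : Finset (Fin M × Fin M) :=
    Finset.univ.filter (fun x => 0 < w x.1 x.2 + w x.2 x.1) with hN
  have hPc : {x : Fin M × Fin M | x.1 < x.2 ∧ 0 < w x.1 x.2 + w x.2 x.1}.ncard = P.card := by
    rw [← Set.ncard_coe_finset]
    congr 1
    ext x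
    simp [hP]
  have hNP : N ⊆ P ∪ P.image Prod.swap := by
    intro x hx
    simp only [hN, Finset.mem_filter, Finset.mem_univ, true_and] at hx
    rw [Finset.mem_union, Finset.mem_image]
    rcases lt_trichotomy x.1 x.2 with h | h | h
    · left
      simp [hP, h, hx]
    · exfalso
      rw [h, hw.diag] at hx
      simp at hx
    · right
      refine ⟨x.swap, ?_, by simp⟩
      simp only [hP, Finset.mem_filter, Finset.mem_univ, true_and, Prod.fst_swap, Prod.snd_swap]
      exact ⟨h, by linarith⟩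
  have hcard : N.card ≤ 2 * E := by
    calc N.card ≤ (P ∪ P.image Prod.swap).card := Finset.card_le_card hNP
      _ ≤ P.card + (P.image Prod.swap).card := Finset.card_union_le _ _
      _ ≤ P.card + P.card := Nat.add_le_add_left Finset.card_image_le _
      _ ≤ 2 * E := by rw [hPc] at hE; omega
  have h1 := sq_sum_le_card_mul_sum_sq (s := N)
    (f := fun x : Fin M × Fin M => w x.1 x.2 + w x.2 x.1)
  have hz : ∀ x ∈ (Finset.univ : Finset (Fin M × Fin M)), x ∉ N → w x.1 x.2 + w x.2 x.1 = 0 := by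
    intro x _ hx
    simp only [hN, Finset.mem_filter, Finset.mem_univ, true_and, not_lt] at hx
    exact le_antisymm hx (add_nonneg (hw.nonneg _ _) (hw.nonneg _ _))
  have h2 : ∑ x ∈ N, (w x.1 x.2 + w x.2 x.1) = 2 * M * q := by
    rw [Finset.sum_subset (Finset.subset_univ N) hz, ← sum_pairs hw, Fintype.sum_prod_type]
  have h3 : ∑ x ∈ N, (w x.1 x.2 + w x.2 x.1) ^ 2 = QQ w := by
    rw [Finset.sum_subset (Finset.subset_univ N) (fun x hx hxN => by rw [hz x hx hxN]; ring)]
    unfold QQ
    rw [Fintype.sum_prod_type]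
  have hQ : 0 ≤ QQ w :=
    Finset.sum_nonneg fun k _ => Finset.sum_nonneg fun j _ => sq_nonneg _
  rw [h2, h3] at h1
  have h4 : (N.card : ℝ) ≤ 2 * E := by exact_mod_cast hcard
  have h5 : (N.card : ℝ) * QQ w ≤ 2 * E * QQ w := mul_le_mul_of_nonneg_right h4 hQ
  nlinarith

/-- main theorem, form with the number of pairs joined by an edge -/
theorem level_le_edges (hM : 2 ≤ M) (hp : 0 < p) (hq : 0 < q) {w : Fin M → Fin M → ℝ}
    (hw : IsHomogeneous q w) (E : ℕ)
    (hE : {x : Fin M × Fin M | x.1 < x.2 ∧ 0 < w x.1 x.2 + w x.2 x.1}.ncard ≤ E) {t : ℝ}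
    (ht : 0 ≤ t) :
    level (fun _ => p) w t ≤ fBass p q t - M * q ^ 2 / (p * E) *
      Real.exp (-(p + q) * t) *
      ∫ s in (0:ℝ)..t, fBass p q s * (fBass p q t - fBass p q s) := by
  have h := level_le_pairs hM hp hq hw ht
  have hQ := QQ_card hw E hE
  have hM0 : (0:ℝ) < M := by
    have : 0 < M := by omega
    exact_mod_cast this
  have hQ0 : 0 ≤ QQ w :=
    Finset.sum_nonneg fun k _ => Finset.sum_nonneg fun j _ => sq_nonneg _
  rw [JJ_eq hp hq] at h ⊢
  have hJ : 0 ≤ JJ p q t := by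
    rcases ht.eq_or_lt with h0 | h0
    · rw [← h0, JJ_zero]
    · exact (JJ_pos hp hq h0).le
  have hE0 : (0:ℝ) < E := by
    rcases Nat.eq_zero_or_pos E with h0 | h0
    · exfalso
      rw [h0] at hQ
      have : 0 < (M * q) ^ 2 := by positivity
      simp only [Nat.cast_zero, zero_mul] at hQ
      linarith
    · exact_mod_cast h0
  have h2 : M * q ^ 2 / (p * E) * Real.exp (-(p + q) * t) * JJ p q t =
      Real.exp (-(p + q) * t) / (p * M) * ((2 * (M * q) ^ 2 / E) / 2) * JJ p q t := by
    field_simp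
  have h3 : Real.exp (-(p + q) * t) / (p * M) * ((2 * (M * q) ^ 2 / E) / 2) * JJ p q t ≤
      Real.exp (-(p + q) * t) / (p * M) * ((∑ k, ∑ j, (w k j + w j k) ^ 2) / 2) * JJ p q t := by
    refine mul_le_mul_of_nonneg_right (mul_le_mul_of_nonneg_left ?_ (by positivity)) hJ
    have : 2 * (M * q) ^ 2 / E ≤ QQ w := by
      rw [div_le_iff₀ hE0]
      linarith
    unfold QQ at this
    linarith
  linarith

/-- networks with a large sum of squares satisfy the inequality of Q1 -/
theorem level_le_complete (hM : 2 ≤ M) (hp : 0 < p) (hq : 0 < q) {w : Fin M → Fin M → ℝ}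
    (hw : IsHomogeneous q w) {t : ℝ} (ht : 0 ≤ t)
    (h : p * M * Real.exp ((p + q) * t) *
        (fBass p q t - level (fun _ : Fin M => p) (completeW q) t) ≤
      ((∑ k, ∑ j, (w k j + w j k) ^ 2) / 2) *
        ∫ s in (0:ℝ)..t, fBass p q s * (fBass p q t - fBass p q s)) :
    level (fun _ => p) w t ≤ level (fun _ : Fin M => p) (completeW q) t := by
  have h1 := level_le_pairs hM hp hq hw ht
  have hM0 : (0:ℝ) < M := by
    have : 0 < M := by omega
    exact_mod_cast this
  have he : Real.exp (-(p + q) * t) * Real.exp ((p + q) * t) = 1 := by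
    rw [← Real.exp_add, show -(p + q) * t + (p + q) * t = 0 by ring, Real.exp_zero]
  have h2 := mul_le_mul_of_nonneg_left h
    (show 0 ≤ Real.exp (-(p + q) * t) / (p * M) by positivity)
  have h3 : Real.exp (-(p + q) * t) / (p * M) * (p * M * Real.exp ((p + q) * t) *
      (fBass p q t - level (fun _ : Fin M => p) (completeW q) t)) =
      (Real.exp (-(p + q) * t) * Real.exp ((p + q) * t)) *
      (fBass p q t - level (fun _ : Fin M => p) (completeW q) t) := by
    field_simp
  rw [h3, he, one_mul, ← mul_assoc] at h2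
  linarith

end Pool.Agent.H43.BG
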